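import Mathlib

/-!
# Flower decomposition: definitions
-/

namespace Pool.Agent.Q223.Flower

variable {V : Type*}

/-- A matching of `G`, encoded by the involution `m` that exchanges the two ends of every edge of
the matching and fixes every vertex which is not covered. -/
def IsMatching (G : SimpleGraph V) (m : V → V) : Prop :=
  (∀ v, m (m v) = v) ∧ ∀ v, m v ≠ v → G.Adj v (m v)

/-- The vertices not covered by the matching `m`. -/
def uncovered (m : V → V) : Set V := {v | m v = v}

/-- A maximum matching: a matching with the fewest uncovered vertices. -/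
def IsMaximum (G : SimpleGraph V) (m : V → V) : Prop :=
  IsMatching G m ∧ ∀ m' : V → V, IsMatching G m' → (uncovered m).ncard ≤ (uncovered m').ncard

/-- `c` lists the `2 t + 1 ≥ 3` vertices of an odd cycle of `G` in cyclic order. -/
def IsOddCycle (G : SimpleGraph V) (t : ℕ) (c : ZMod (2 * t + 1) → V) : Prop :=
  1 ≤ t ∧ Function.Injective c ∧ ∀ i, G.Adj (c i) (c (i + 1))

/-- The edge set of the cycle listed by `c`. -/
def cycleEdges (t : ℕ) (c : ZMod (2 * t + 1) → V) : Set (Sym2 V) :=
  Set.range fun i => s(c i, c (i + 1))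

/-- The set of odd cycles of `G`, every cycle being given by its edge set. -/
def oddCycles (G : SimpleGraph V) : Set (Set (Sym2 V)) :=
  {E | ∃ (t : ℕ) (c : ZMod (2 * t + 1) → V), IsOddCycle G t c ∧ cycleEdges t c = E}

/-- `m`-flower: `c` lists the vertices of the blossom, `p 0, …, p (2 s)` are the vertices of the
stem. -/
structure IsFlower (G : SimpleGraph V) (m : V → V) (t : ℕ) (c : ZMod (2 * t + 1) → V)
    (s : ℕ) (p : ℕ → V) : Prop where
  /-- the blossom is an odd cycle with `2 t + 1` vertices -/
  cycle : IsOddCycle G t c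
  /-- exactly `t` edges of the cycle are in the matching -/
  blossom : {i | m (c i) = c (i + 1)}.ncard = t
  /-- the stem starts in the base, the vertex of the cycle not covered by these `t` edges -/
  base : ∃ j, p 0 = c j ∧ m (c j) ≠ c (j + 1) ∧ m (c j) ≠ c (j - 1)
  /-- the stem is a path … -/
  path_inj : ∀ i ≤ 2 * s, ∀ k ≤ 2 * s, p i = p k → i = k
  path_adj : ∀ i < 2 * s, G.Adj (p i) (p (i + 1))
  /-- … which alternates … -/
  alternating : ∀ i, i + 2 ≤ 2 * s → (m (p i) = p (i + 1) ↔ m (p (i + 1)) ≠ p (i + 2))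
  /-- … ends in an uncovered vertex … -/
  end_uncovered : m (p (2 * s)) = p (2 * s)
  /-- … and meets the blossom only in the base. -/
  meets : ∀ i ≤ 2 * s, p i ∈ Set.range c → i = 0

/-- The reach set `R(C)` of the cycle with edge set `E`. -/
def reach (G : SimpleGraph V) (E : Set (Sym2 V)) : Set V :=
  {v | ∃ (m : V → V) (t : ℕ) (c : ZMod (2 * t + 1) → V) (s : ℕ) (p : ℕ → V),
    IsMaximum G m ∧ IsFlower G m t c s p ∧ cycleEdges t c = E ∧
      (v ∈ Set.range c ∨ ∃ i ≤ 2 * s, v = p i)}

/-- `R`-disjoint graphs. -/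
def RDisjoint (G : SimpleGraph V) : Prop :=
  (oddCycles G).Nonempty ∧ (∀ E ∈ oddCycles G, (reach G E).Nonempty) ∧
    ∀ E ∈ oddCycles G, ∀ E' ∈ oddCycles G, E ≠ E' → Disjoint (reach G E) (reach G E')

/-- The part `B(G)` of the flower decomposition. -/
def bPart (G : SimpleGraph V) : Set V := {v | ∀ E ∈ oddCycles G, v ∉ reach G E}

open Classical in
/-- The determinant of the real adjacency matrix of `G`. -/
noncomputable def detAdj [Fintype V] (G : SimpleGraph V) : ℝ := (G.adjMatrix ℝ).det

open Classical in
/-- The determinant of the adjacency matrix of the induced subgraph `G[X]`. -/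
noncomputable def detInduced [Fintype V] (G : SimpleGraph V) (X : Set V) : ℝ :=
  ((G.induce X).adjMatrix ℝ).det

end Pool.Agent.Q223.Flower
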