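import Pool.Agent.Q223.Flower.PermM

namespace Pool.Agent.Q223.Flower

theorem det_blocks {V α : Type*} [Fintype V] [DecidableEq V] [Fintype α] [DecidableEq α]
    (A : Matrix V V ℝ) (b : V → α)
    (h : ∀ σ : Equiv.Perm V, (∀ v, A (σ v) v ≠ 0) → ∀ v, b (σ v) = b v) :
    A.det = ∏ a : α, (A.submatrix (Subtype.val : {v // b v = a} → V)
      (Subtype.val : {v // b v = a} → V)).det := by
  classical
  set M : Matrix V V ℝ := Matrix.of fun i j => if b i = b j then A i j else 0 with hM
  have h1 : A.det = M.det := by
    rw [Matrix.det_apply, Matrix.det_apply]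
    refine Finset.sum_congr rfl fun σ _ => ?_
    congr 1
    by_cases hb : ∀ v, b (σ v) = b v
    · refine Finset.prod_congr rfl fun v _ => ?_
      simp [hM, hb v]
    · have h2 : ∃ v, A (σ v) v = 0 := by
        by_contra hc
        push Not at hc
        exact hb (h σ hc)
      obtain ⟨v, hv⟩ := h2
      push Not at hb
      obtain ⟨w, hw⟩ := hb
      have e1 : ∏ i, A (σ i) i = 0 :=
        Finset.prod_eq_zero (f := fun i => A (σ i) i) (Finset.mem_univ v) hv
      have e2 : ∏ i, M (σ i) i = 0 :=
        Finset.prod_eq_zero (f := fun i => M (σ i) i) (Finset.mem_univ w) (by simp [hM, hw])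
      rw [e1, e2]
  let e : α ≃ Fin (Fintype.card α) := Fintype.equivFin α
  have h2 : M.BlockTriangular (fun v => e (b v)) := by
    intro i j hij
    have : b i ≠ b j := by
      intro h
      simp only [h] at hij
      exact lt_irrefl _ hij
    simp [hM, this]
  rw [h1, h2.det_fintype, ← Equiv.prod_comp e]
  refine Finset.prod_congr rfl fun a _ => ?_
  let f : {v // b v = a} ≃ {v // e (b v) = e a} :=
    Equiv.subtypeEquivRight (fun v => ⟨fun h => by rw [h], fun h => e.injective h⟩)
  rw [← Matrix.det_submatrix_equiv_self f]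
  congr 1
  ext i j
  have hi := i.2
  have hj := j.2
  simp [Matrix.toSquareBlock_def, hM, f, hi, hj]

theorem main {V : Type*} [Fintype V] (G : SimpleGraph V) (hG : RDisjoint G) :
    detAdj G = detInduced G (bPart G) *
      ∏ E ∈ (Set.toFinite (oddCycles G)).toFinset, detInduced G (reach G E) := by
  classical
  have : Fintype ↥(oddCycles G) := Fintype.ofFinite _
  set b : V → Option ↥(oddCycles G) := fun v =>
    if h : ∃ E : ↥(oddCycles G), v ∈ reach G E.1 then some h.choose else none with hb
  have hb1 : ∀ v (E : ↥(oddCycles G)), b v = some E ↔ v ∈ reach G E.1 := by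
    intro v E
    constructor
    · intro h
      by_cases hex : ∃ E : ↥(oddCycles G), v ∈ reach G E.1
      · simp only [hb, hex, dif_pos, Option.some.injEq] at h
        rw [← h]
        exact hex.choose_spec
      · simp only [hb, hex, dif_neg, not_false_eq_true] at h
        exact absurd h (by simp)
    · intro h
      have hex : ∃ E : ↥(oddCycles G), v ∈ reach G E.1 := ⟨E, h⟩
      simp only [hb, hex, dif_pos, Option.some.injEq]
      by_contra hne
      have h1 := hG.2.2 _ hex.choose.2 _ E.2 (fun h => hne (Subtype.ext h))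
      exact Set.disjoint_left.mp h1 hex.choose_spec h
  have hb2 : ∀ v, b v = none ↔ v ∈ bPart G := by
    intro v
    constructor
    · intro h E hE hv
      rw [(hb1 v ⟨E, hE⟩).2 hv] at h
      exact absurd h (by simp)
    · intro h
      rcases hbv : b v with _ | E
      · rfl
      · exact absurd ((hb1 v E).1 hbv) (h E.1 E.2)
  have hperm : ∀ σ : Equiv.Perm V, (∀ v, (G.adjMatrix ℝ) (σ v) v ≠ 0) → ∀ v, b (σ v) = b v := by
    intro σ hσ v
    have hadj : ∀ v, G.Adj v (σ v) := by
      intro v
      have := hσ v
      rw [SimpleGraph.adjMatrix_apply] at this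
      by_contra hn
      rw [if_neg (fun h => hn h.symm)] at this
      exact this rfl
    rcases hbv : b v with _ | E
    · rcases hbs : b (σ v) with _ | E
      · rfl
      · rw [hb1, perm_reach_iff hG σ hadj E.1 E.2, ← hb1, hbv] at hbs
        exact absurd hbs (by simp)
    · rw [hb1] at hbv
      rw [hb1, perm_reach_iff hG σ hadj E.1 E.2]
      exact hbv
  have hdet := det_blocks (G.adjMatrix ℝ) b hperm
  have hsub : ∀ (a : Option ↥(oddCycles G)) (X : Set V), (∀ v, b v = a ↔ v ∈ X) →
      ((G.adjMatrix ℝ).submatrix (Subtype.val : {v // b v = a} → V)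
      (Subtype.val : {v // b v = a} → V)).det = detInduced G X := by
    intro a X hX
    unfold detInduced
    let f : {v // b v = a} ≃ ↥X := Equiv.subtypeEquivRight hX
    rw [← Matrix.det_submatrix_equiv_self f]
    congr 1
  have h0 : detAdj G = (G.adjMatrix ℝ).det := by
    unfold detAdj
    congr 1
  rw [h0, hdet, Fintype.prod_option, hsub none (bPart G) hb2]
  congr 1
  have h3 : ∏ E ∈ (Set.toFinite (oddCycles G)).toFinset, detInduced G (reach G E) =
      ∏ E : ↥(oddCycles G), detInduced G (reach G E.1) := by
    rw [Finset.prod_subtype]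
    intro E
    simp
  rw [h3]
  refine Finset.prod_congr rfl fun E _ => ?_
  exact hsub (some E) (reach G E.1) (fun v => hb1 v E)

end Pool.Agent.Q223.Flower
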