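import Pool.Agent.Q223.Flower.Switch

namespace Pool.Agent.Q223.Flower

variable {V : Type*} [Finite V] {G : SimpleGraph V}

/-- Data from which a flower can be built. -/
structure Good (G : SimpleGraph V) (m : V → V) (t : ℕ) (c : ZMod (2 * t + 1) → V)
    (s : ℕ) (p : ℕ → V) : Prop where
  cycle : IsOddCycle G t c
  closed : ∀ i, m (c i) ∈ Set.range c
  ex : ∃ i, m (c i) = c i
  start : p 0 ∈ Set.range c
  out : ∀ i ≤ 2 * s, p i ∈ Set.range c → i = 0
  inj : ∀ i ≤ 2 * s, ∀ k ≤ 2 * s, p i = p k → i = k
  pair : ∀ i < s, m (p (2 * i + 1)) = p (2 * i + 2)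
  adj : ∀ i < s, G.Adj (p (2 * i)) (p (2 * i + 1))

theorem ncard_odd (t : ℕ) : {k : ZMod (2 * t + 1) | k.val % 2 = 1}.ncard = t := by
  have h : {k : ZMod (2 * t + 1) | k.val % 2 = 1} =
      (fun a : Fin t => ((2 * a.val + 1 : ℕ) : ZMod (2 * t + 1))) '' Set.univ := by
    ext k
    simp only [Set.mem_ofPred_eq, Set.image_univ, Set.mem_range]
    constructor
    · intro hk
      have hlt := ZMod.val_lt k
      refine ⟨⟨k.val / 2, by omega⟩, ?_⟩
      have : 2 * (k.val / 2) + 1 = k.val := by omega
      simp only
      rw [this, ZMod.natCast_zmod_val]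
    · rintro ⟨a, rfl⟩
      have ha := a.isLt
      rw [ZMod.val_natCast_of_lt (by omega)]
      omega
  rw [h, Set.ncard_image_of_injective, Set.ncard_univ, Nat.card_eq_fintype_card, Fintype.card_fin]
  intro a b hab
  have ha := a.isLt
  have hb := b.isLt
  have := congrArg ZMod.val hab
  simp only at this
  rw [ZMod.val_natCast_of_lt (by omega), ZMod.val_natCast_of_lt (by omega)] at this
  apply Fin.ext
  omega

theorem two_ne (t : ℕ) (ht : 1 ≤ t) (i : ZMod (2 * t + 1)) : i + 1 ≠ i - 1 := by
  intro h
  have h2 : ((2 : ℕ) : ZMod (2 * t + 1)) = 0 := by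
    push_cast
    linear_combination h
  have h3 := congrArg ZMod.val h2
  rw [ZMod.val_natCast_of_lt (by omega), ZMod.val_zero] at h3
  omega

theorem flower_of_good {m : V → V} (hm : IsMaximum G m) {t : ℕ} {c : ZMod (2 * t + 1) → V}
    {s : ℕ} {p : ℕ → V} (h : Good G m t c s p) :
    ∃ n : V → V, IsMaximum G n ∧ IsFlower G n t c s p ∧
      (∀ v, v ∉ Set.range c → (∀ i ≤ 2 * s, v ≠ p i) → n v = m v) := by
  obtain ⟨hc, hcl, hex, hst, hout, hinj, hpair, hadj⟩ := h
  obtain ⟨ht, cinj, cadj⟩ := id hc
  obtain ⟨j, hj⟩ := hst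
  obtain ⟨n1, hn1, r1, r2⟩ := rotate hm hc hcl hex j
  have hp1 : n1 (p 0) = p 0 := by
    have := r1 0
    rw [rho_zero, add_zero] at this
    rw [← hj, this]
  obtain ⟨n, hn, s1, s2, s3⟩ := switch_fwd hn1 s p hinj hp1
    (by
      intro i hi
      rw [r2 _ (fun h => by have := hout _ (by omega) h; omega), hpair i hi]) hadj
  have hoff : ∀ k, k ≠ 0 → n (c (j + k)) = c (j + rho t k) := by
    intro k hk
    rw [s3, r1]
    intro i hi hik
    have := hout i hi ⟨_, hik⟩
    subst this
    rw [← hj] at hik
    have := cinj hik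
    apply hk
    linear_combination this
  have hnj : n (c j) = c j ∨ n (c j) ∉ Set.range c := by
    rcases Nat.eq_zero_or_pos s with hs | hs
    · left
      subst hs
      rw [hj]
      exact s2
    · right
      rw [hj, show n (p 0) = p 1 from s1 0 hs]
      intro h
      have := hout 1 (by omega) h
      omega
  have hone : (1 : ZMod (2 * t + 1)) ≠ 0 := by
    intro h
    have h3 := congrArg ZMod.val h
    rw [ZMod.val_one_eq_one_mod, Nat.mod_eq_of_lt (by omega : 1 < 2 * t + 1), ZMod.val_zero] at h3
    omega
  have hnj1 : ∀ i, n (c j) = c i → i = j := by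
    intro i hi
    rcases hnj with h | h
    · rw [h] at hi
      exact (cinj hi).symm
    · exact absurd ⟨i, hi.symm⟩ h
  refine ⟨n, hn, ?_, ?_⟩
  · refine ⟨hc, ?_, ⟨j, hj.symm, ?_, ?_⟩, hinj, ?_, ?_, s2, hout⟩
    · have e : {i | n (c i) = c (i + 1)} = (fun k => j + k) '' {k : ZMod (2 * t + 1) | k.val % 2 = 1} := by
        ext i
        simp only [Set.mem_ofPred_eq, Set.mem_image]
        constructor
        · intro hi
          refine ⟨i - j, ?_, by ring⟩
          by_contra hv
          by_cases h0 : i - j = 0
          · have : i = j := by linear_combination h0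
            subst this
            have := hnj1 _ hi
            exact hone (by linear_combination this)
          · have h1 := hoff _ h0
            rw [rho_even t _ h0 (by omega)] at h1
            rw [show j + (i - j) = i by ring, hi] at h1
            have h2 := cinj h1
            exact two_ne t ht i (by linear_combination h2)
        · rintro ⟨k, hk, rfl⟩
          have h0 : k ≠ 0 := by
            rintro rfl
            simp at hk
          rw [hoff k h0, rho_odd t k hk]
          congr 1
          ring
      rw [e, Set.ncard_image_of_injective _ (add_right_injective j), ncard_odd]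
    · intro h
      have := hnj1 _ h
      exact hone (by linear_combination this)
    · intro h
      have := hnj1 _ h
      exact hone (by linear_combination -this)
    · intro i hi
      rcases Nat.even_or_odd' i with ⟨k, rfl | rfl⟩
      · exact hadj k (by omega)
      · have h1 := hpair k (by omega)
        have h2 : m (p (2 * k + 1)) ≠ p (2 * k + 1) := by
          rw [h1]
          intro h
          have := hinj _ (by omega) _ (by omega) h
          omega
        have h3 := hm.1.2 _ h2
        rw [h1] at h3
        exact h3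
    · intro i hi
      rcases Nat.even_or_odd' i with ⟨k, rfl | rfl⟩
      · have h1 := s1 k (by omega)
        have h2 : n (p (2 * k + 1)) = p (2 * k) := by rw [← h1, hn.1.1]
        constructor
        · intro _
          rw [h2]
          intro h
          have := hinj _ (by omega) _ (by omega) h
          omega
        · intro _
          exact h1
      · have h1 := s1 k (by omega)
        have h2 : n (p (2 * k + 1)) = p (2 * k) := by rw [← h1, hn.1.1]
        have h3 := s1 (k + 1) (by omega)
        constructor
        · intro h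
          rw [h2] at h
          have := hinj _ (by omega) _ (by omega) h
          omega
        · intro h
          exact absurd h3 h
  · intro v hv hv'
    rw [s3 v hv', r2 v hv]

theorem good_subset_reach {m : V → V} (hm : IsMaximum G m) {t : ℕ} {c : ZMod (2 * t + 1) → V}
    {s : ℕ} {p : ℕ → V} (h : Good G m t c s p) :
    (∀ i, c i ∈ reach G (cycleEdges t c)) ∧ ∀ i ≤ 2 * s, p i ∈ reach G (cycleEdges t c) := by
  obtain ⟨n, hn, hf, -⟩ := flower_of_good hm h
  exact ⟨fun i => ⟨n, t, c, s, p, hn, hf, rfl, Or.inl ⟨i, rfl⟩⟩,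
    fun i hi => ⟨n, t, c, s, p, hn, hf, rfl, Or.inr ⟨i, hi, rfl⟩⟩⟩

/-- A vertex adjacent to the end of a good path and not on it is covered. -/
theorem good_covered {m : V → V} (hm : IsMaximum G m) {t : ℕ} {c : ZMod (2 * t + 1) → V}
    {s : ℕ} {p : ℕ → V} (h : Good G m t c s p) (w : V) (hw : w ∉ Set.range c)
    (hw' : ∀ i ≤ 2 * s, w ≠ p i) (hadj : G.Adj (p (2 * s)) w) : m w ≠ w := by
  obtain ⟨n, hn, hf, h3⟩ := flower_of_good hm h
  have := not_both hn _ _ hadj hf.end_uncovered
  rwa [h3 w hw hw'] at this

/-- A good path can be extended by a neighbour of its end. -/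
theorem good_extend {m : V → V} (hm : IsMaximum G m) {t : ℕ} {c : ZMod (2 * t + 1) → V}
    {s : ℕ} {p : ℕ → V} (h : Good G m t c s p) (w : V) (hw : w ∉ Set.range c)
    (hw' : ∀ i ≤ 2 * s, w ≠ p i) (hadj : G.Adj (p (2 * s)) w) :
    ∃ p', Good G m t c (s + 1) p' ∧ p' (2 * s + 1) = w ∧ p' (2 * s + 2) = m w := by
  have hcov := good_covered hm h w hw hw' hadj
  obtain ⟨hc, hcl, hex, hst, hout, hinj, hpair, hpadj⟩ := h
  have hmm := hm.1.1
  have hmw : m w ∉ Set.range c := by
    rintro ⟨i, hi⟩
    apply hw
    have := hcl i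
    rwa [hi, hmm] at this
  have hmw' : ∀ i ≤ 2 * s, m w ≠ p i := by
    intro i hi h
    rcases Nat.even_or_odd' i with ⟨k, rfl | rfl⟩
    · rcases k with _ | k
      · apply hmw
        rw [h]
        exact hst
      · have h1 := hpair k (by omega)
        have h2 : m w = p (2 * k + 2) := h
        rw [← h1] at h2
        have h3 := congrArg m h2
        rw [hmm, hmm] at h3
        exact hw' _ (by omega) h3
    · have h1 := hpair k (by omega)
      rw [← h, hmm] at h1
      exact hw' _ (by omega) h1
  set p' : ℕ → V := fun i => if i ≤ 2 * s then p i else if i = 2 * s + 1 then w else m w with hp'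
  have p'le : ∀ i, i ≤ 2 * s → p' i = p i := fun i hi => by simp [hp', hi]
  have p'y : p' (2 * s + 1) = w := by simp [hp']
  have p'z : p' (2 * s + 2) = m w := by
    simp only [hp']
    rw [if_neg (by omega), if_neg (by omega)]
  refine ⟨p', ⟨hc, hcl, hex, ?_, ?_, ?_, ?_, ?_⟩, p'y, p'z⟩
  · rw [p'le 0 (by omega)]; exact hst
  · intro i hi hi'
    have ci : i ≤ 2 * s ∨ i = 2 * s + 1 ∨ i = 2 * s + 2 := by omega
    rcases ci with ci | rfl | rfl
    · rw [p'le i ci] at hi'
      exact hout i ci hi'
    · rw [p'y] at hi'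
      exact absurd hi' hw
    · rw [p'z] at hi'
      exact absurd hi' hmw
  · intro i hi k hk hik
    have ci : i ≤ 2 * s ∨ i = 2 * s + 1 ∨ i = 2 * s + 2 := by omega
    have ck : k ≤ 2 * s ∨ k = 2 * s + 1 ∨ k = 2 * s + 2 := by omega
    rcases ci with ci | rfl | rfl <;> rcases ck with ck | rfl | rfl
    · rw [p'le _ ci, p'le _ ck] at hik
      exact hinj _ ci _ ck hik
    · rw [p'le _ ci, p'y] at hik
      exact absurd hik.symm (hw' _ ci)
    · rw [p'le _ ci, p'z] at hik
      exact absurd hik.symm (hmw' _ ci)
    · rw [p'le _ ck, p'y] at hik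
      exact absurd hik (hw' _ ck)
    · rfl
    · rw [p'y, p'z] at hik
      exact absurd hik.symm hcov
    · rw [p'le _ ck, p'z] at hik
      exact absurd hik (hmw' _ ck)
    · rw [p'y, p'z] at hik
      exact absurd hik hcov
    · rfl
  · intro i hi
    by_cases his : i = s
    · subst his
      rw [p'y, p'z]
    · rw [p'le (2 * i + 1) (by omega), p'le (2 * i + 2) (by omega)]
      exact hpair i (by omega)
  · intro i hi
    by_cases his : i = s
    · subst his
      rw [p'y, p'le _ le_rfl]
      exact hadj
    · rw [p'le (2 * i + 1) (by omega), p'le (2 * i) (by omega)]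
      exact hpadj i (by omega)

end Pool.Agent.Q223.Flower
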