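import Pool.Agent.Q223.Flower.Defs

namespace Pool.Agent.Q223.Flower

variable {V : Type*} [Finite V] {G : SimpleGraph V}

theorem glue {m : V → V} (hm : IsMatching G m) {ι : Type*} [Finite ι] (q : ι → V)
    (hq : Function.Injective q) (hcl : ∀ i, m (q i) ∈ Set.range q) (r : ι → ι)
    (hr : ∀ i, r (r i) = i) (hadj : ∀ i, r i ≠ i → G.Adj (q i) (q (r i))) :
    ∃ n : V → V, IsMatching G n ∧ (∀ i, n (q i) = q (r i)) ∧
      (∀ v, v ∉ Set.range q → n v = m v) ∧
      (uncovered n).ncard + {v | v ∈ Set.range q ∧ m v = v}.ncard =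
        (uncovered m).ncard + {i | r i = i}.ncard := by
  classical
  set n : V → V := fun v => if h : v ∈ Set.range q then q (r h.choose) else m v with hn
  have h1 : ∀ i, n (q i) = q (r i) := by
    intro i
    have h : q i ∈ Set.range q := ⟨i, rfl⟩
    simp only [hn, h, dif_pos]
    congr 2
    exact hq h.choose_spec
  have h2 : ∀ v, v ∉ Set.range q → n v = m v := by
    intro v hv
    simp only [hn, hv, dif_neg, not_false_eq_true]
  have h3 : ∀ v, v ∉ Set.range q → m v ∉ Set.range q := by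
    rintro v hv ⟨i, hi⟩
    apply hv
    have := hcl i
    rwa [hi, hm.1] at this
  refine ⟨n, ⟨?_, ?_⟩, h1, h2, ?_⟩
  · intro v
    by_cases hv : v ∈ Set.range q
    · obtain ⟨i, rfl⟩ := hv
      rw [h1, h1, hr]
    · rw [h2 v hv, h2 _ (h3 v hv), hm.1]
  · intro v hv'
    by_cases hv : v ∈ Set.range q
    · obtain ⟨i, rfl⟩ := hv
      rw [h1] at hv' ⊢
      exact hadj i (fun h => hv' (by rw [h]))
    · rw [h2 v hv] at hv' ⊢
      exact hm.2 v hv'
  · have e1 : uncovered n = (q '' {i | r i = i}) ∪ {v | v ∉ Set.range q ∧ m v = v} := by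
      ext v
      simp only [uncovered, Set.mem_ofPred_eq, Set.mem_union, Set.mem_image]
      by_cases hv : v ∈ Set.range q
      · obtain ⟨i, rfl⟩ := hv
        rw [h1]
        constructor
        · intro h
          exact Or.inl ⟨i, hq h, rfl⟩
        · rintro (⟨k, hk, hk'⟩ | ⟨h, -⟩)
          · have := hq hk'
            subst this
            rw [hk]
          · exact absurd ⟨i, rfl⟩ h
      · rw [h2 v hv]
        constructor
        · intro h
          exact Or.inr ⟨hv, h⟩
        · rintro (⟨k, _, hk'⟩ | ⟨_, h⟩)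
          · exact absurd ⟨k, hk'⟩ hv
          · exact h
    have e2 : uncovered m = {v | v ∈ Set.range q ∧ m v = v} ∪ {v | v ∉ Set.range q ∧ m v = v} := by
      ext v
      simp only [uncovered, Set.mem_ofPred_eq, Set.mem_union]
      tauto
    have d1 : Disjoint (q '' {i | r i = i}) {v | v ∉ Set.range q ∧ m v = v} := by
      rw [Set.disjoint_left]
      rintro v ⟨i, _, rfl⟩ ⟨h, -⟩
      exact h ⟨i, rfl⟩
    have d2 : Disjoint {v | v ∈ Set.range q ∧ m v = v} {v | v ∉ Set.range q ∧ m v = v} := by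
      rw [Set.disjoint_left]
      rintro v ⟨h, -⟩ ⟨h', -⟩
      exact h' h
    rw [e1, e2, Set.ncard_union_eq d1, Set.ncard_union_eq d2, Set.ncard_image_of_injective _ hq]
    omega

/-- If the range of `q` can be perfectly matched then a maximum matching which preserves it
covers it. -/
theorem glue0 {m : V → V} (hm : IsMaximum G m) {ι : Type*} [Finite ι] (q : ι → V)
    (hq : Function.Injective q) (hcl : ∀ i, m (q i) ∈ Set.range q) (r : ι → ι)
    (hr : ∀ i, r (r i) = i) (hadj : ∀ i, G.Adj (q i) (q (r i))) (i : ι) : m (q i) ≠ q i := by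
  intro hi
  obtain ⟨n, hn, -, -, hc⟩ := glue hm.1 q hq hcl r hr (fun i _ => hadj i)
  have h1 := hm.2 n hn
  have h2 : {i | r i = i} = ∅ := by
    ext k
    simp only [Set.mem_ofPred_eq, Set.mem_empty_iff_false, iff_false]
    intro h
    have := hadj k
    rw [h] at this
    exact G.loopless.irrefl _ this
  have h3 : 0 < {v | v ∈ Set.range q ∧ m v = v}.ncard := by
    rw [Set.ncard_pos]
    exact ⟨q i, ⟨i, rfl⟩, hi⟩
  rw [h2, Set.ncard_empty] at hc
  omega

theorem glue1 {m : V → V} (hm : IsMaximum G m) {ι : Type*} [Finite ι] (q : ι → V)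
    (hq : Function.Injective q) (hcl : ∀ i, m (q i) ∈ Set.range q) (r : ι → ι)
    (hr : ∀ i, r (r i) = i) (hadj : ∀ i, r i ≠ i → G.Adj (q i) (q (r i)))
    (hone : ∀ i j, r i = i → r j = j → i = j) (hex : ∃ i, m (q i) = q i) :
    ∃ n : V → V, IsMaximum G n ∧ (∀ i, n (q i) = q (r i)) ∧
      (∀ v, v ∉ Set.range q → n v = m v) := by
  obtain ⟨n, hn, h1, h2, hc⟩ := glue hm.1 q hq hcl r hr hadj
  refine ⟨n, ⟨hn, ?_⟩, h1, h2⟩
  intro m' hm'
  have h3 := hm.2 m' hm'
  have h4 : {i | r i = i}.ncard ≤ 1 := by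
    rw [Set.ncard_le_one]
    intro a ha b hb
    exact hone a b ha hb
  have h5 : 0 < {v | v ∈ Set.range q ∧ m v = v}.ncard := by
    rw [Set.ncard_pos]
    obtain ⟨i, hi⟩ := hex
    exact ⟨q i, ⟨i, rfl⟩, hi⟩
  omega

/-- Two adjacent vertices are not both uncovered by a maximum matching. -/
theorem not_both {m : V → V} (hm : IsMaximum G m) (u w : V) (h : G.Adj u w) (hu : m u = u) :
    m w ≠ w := by
  intro hw
  have hne : u ≠ w := G.ne_of_adj h
  refine glue0 hm (fun b : Bool => if b then u else w) ?_ ?_ (fun b => !b) ?_ ?_ true ?_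
  · intro a b hab
    cases a <;> cases b <;> simp_all
  · intro b
    cases b
    · exact ⟨false, by simp [hw]⟩
    · exact ⟨true, by simp [hu]⟩
  · intro b; cases b <;> rfl
  · intro b
    cases b
    · simpa using h.symm
    · simpa using h
  · simpa using hu

end Pool.Agent.Q223.Flower
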