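import Pool.Agent.Q223.Flower.Glue

namespace Pool.Agent.Q223.Flower

variable {V : Type*} [Finite V] {G : SimpleGraph V}

/-- `p 0, …, p (2 s)` is the beginning of the alternating walk from `x`. -/
def Alt (m n : V → V) (x : V) (s : ℕ) (p : ℕ → V) : Prop :=
  p 0 = x ∧ (∀ i ≤ 2 * s, ∀ k ≤ 2 * s, p i = p k → i = k) ∧
    (∀ i < s, p (2 * i + 1) = m (p (2 * i))) ∧ (∀ i < s, p (2 * i + 2) = n (p (2 * i + 1)))

/-- involution pairing `2 i` and `2 i + 1` in `Fin (2 s + 2)` -/
def pairUp (s : ℕ) (i : Fin (2 * s + 2)) : Fin (2 * s + 2) :=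
  ⟨if i.val % 2 = 0 then i.val + 1 else i.val - 1, by
    have := i.isLt
    split_ifs with h <;> omega⟩

theorem pairUp_invol (s : ℕ) (i : Fin (2 * s + 2)) : pairUp s (pairUp s i) = i := by
  have := i.isLt
  apply Fin.ext
  simp only [pairUp]
  by_cases h : i.val % 2 = 0
  · have h2 : ¬ (i.val + 1) % 2 = 0 := by omega
    simp only [h, if_true, h2, if_false]
    omega
  · have h2 : (i.val - 1) % 2 = 0 := by omega
    simp only [h, if_false, h2, if_true]
    omega

theorem alt_step {m n : V → V} (hm : IsMaximum G m) (hn : IsMaximum G n) (x : V) (hx : n x = x)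
    (s : ℕ) (p : ℕ → V) (h : Alt m n x s p) (hne : m (p (2 * s)) ≠ p (2 * s)) :
    ∃ p', Alt m n x (s + 1) p' := by
  classical
  obtain ⟨h0, hinj, ho, he⟩ := h
  set y := m (p (2 * s)) with hy
  have hmy : m y = p (2 * s) := hm.1.1 _
  have y1 : ∀ i ≤ 2 * s, p i ≠ y := by
    intro i hi hiy
    rcases Nat.even_or_odd' i with ⟨j, rfl | rfl⟩
    · by_cases hj : j = s
      · subst hj; exact hne hiy.symm
      · have h1 := ho j (by omega)
        rw [hiy, hmy] at h1
        have := hinj _ (by omega) _ (by omega) h1
        omega
    · have h1 := ho j (by omega)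
      have h2 : m (p (2 * j + 1)) = p (2 * j) := by rw [h1, hm.1.1]
      rw [hiy, hmy] at h2
      have := hinj _ (by omega) _ (by omega) h2
      omega
  have nneg : ∀ i < s, n (p (2 * i + 2)) = p (2 * i + 1) := by
    intro i hi
    rw [he i hi, hn.1.1]
  by_cases hny : n y = y
  · exfalso
    set p' : ℕ → V := fun i => if i ≤ 2 * s then p i else y with hp'
    have p'le : ∀ i, i ≤ 2 * s → p' i = p i := fun i hi => by simp [hp', hi]
    have p'gt : ∀ i, ¬ i ≤ 2 * s → p' i = y := fun i hi => by simp [hp', hi]
    refine glue0 hn (fun i : Fin (2 * s + 2) => p' i.val) ?_ ?_ (pairUp s) (pairUp_invol s) ?_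
      ⟨0, by omega⟩ ?_
    · intro a b hab
      have ha := a.isLt
      have hb := b.isLt
      apply Fin.ext
      simp only at hab
      by_cases ha' : a.val ≤ 2 * s
      · by_cases hb' : b.val ≤ 2 * s
        · rw [p'le _ ha', p'le _ hb'] at hab
          exact hinj _ ha' _ hb' hab
        · rw [p'le _ ha', p'gt _ hb'] at hab
          exact absurd hab (y1 _ ha')
      · by_cases hb' : b.val ≤ 2 * s
        · rw [p'gt _ ha', p'le _ hb'] at hab
          exact absurd hab.symm (y1 _ hb')
        · omega
    · intro i
      have hi := i.isLt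
      simp only [Set.mem_range]
      by_cases hi' : i.val ≤ 2 * s
      · rcases Nat.even_or_odd' i.val with ⟨j, hj | hj⟩
        · rcases j with _ | j
          · refine ⟨⟨0, by omega⟩, ?_⟩
            rw [hj]
            simp only [Nat.mul_zero]
            rw [p'le 0 (by omega), h0, hx]
          · refine ⟨⟨2 * j + 1, by omega⟩, ?_⟩
            rw [hj, p'le (2 * (j + 1)) (by omega), p'le (2 * j + 1) (by omega)]
            rw [← nneg j (by omega)]
            rfl
        · refine ⟨⟨2 * j + 2, by omega⟩, ?_⟩
          rw [hj, p'le (2 * j + 2) (by omega), p'le (2 * j + 1) (by omega)]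
          exact he j (by omega)
      · refine ⟨⟨2 * s + 1, by omega⟩, ?_⟩
        rw [p'gt _ hi', p'gt _ (by simp), hny]
    · intro i
      have hi := i.isLt
      simp only [pairUp]
      rcases Nat.even_or_odd' i.val with ⟨j, hj | hj⟩
      · have e1 : i.val % 2 = 0 := by omega
        rw [if_pos e1, hj]
        rw [p'le _ (by omega)]
        by_cases hjs : j = s
        · subst hjs
          rw [p'gt _ (by omega)]
          exact hm.1.2 _ hne
        · rw [p'le _ (by omega), ho j (by omega)]
          apply hm.1.2
          rw [← ho j (by omega)]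
          intro h1
          have := hinj _ (by omega) _ (by omega) h1
          omega
      · have e1 : ¬ i.val % 2 = 0 := by omega
        rw [if_neg e1, hj]
        simp only [Nat.add_sub_cancel]
        rw [p'le (2 * j) (by omega)]
        refine SimpleGraph.Adj.symm ?_
        by_cases hjs : j = s
        · subst hjs
          rw [p'gt _ (by omega)]
          exact hm.1.2 _ hne
        · rw [p'le _ (by omega), ho j (by omega)]
          apply hm.1.2
          rw [← ho j (by omega)]
          intro h1
          have := hinj _ (by omega) _ (by omega) h1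
          omega
    · simp only
      rw [p'le _ (by omega), h0, hx]
  · set z := n y with hz
    have hnz : n z = y := hn.1.1 _
    have z1 : ∀ i ≤ 2 * s, p i ≠ z := by
      intro i hi hiz
      rcases Nat.even_or_odd' i with ⟨j, rfl | rfl⟩
      · rcases j with _ | j
        · simp only [Nat.mul_zero] at hiz
          rw [h0] at hiz
          rw [← hiz, hx] at hnz
          exact y1 0 (by omega) (by rw [h0, hnz])
        · have h1 := nneg j (by omega)
          have h2 : p (2 * j + 2) = z := hiz
          rw [h2, hnz] at h1
          exact y1 _ (by omega) h1.symm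
      · have h1 := he j (by omega)
        rw [hiz, hnz] at h1
        exact y1 _ (by omega) h1
    set p' : ℕ → V := fun i => if i ≤ 2 * s then p i else if i = 2 * s + 1 then y else z with hp'
    have p'le : ∀ i, i ≤ 2 * s → p' i = p i := fun i hi => by simp [hp', hi]
    have p'y : p' (2 * s + 1) = y := by simp [hp']
    have p'z : p' (2 * s + 2) = z := by
      simp only [hp']
      rw [if_neg (by omega), if_neg (by omega)]
    refine ⟨p', by rw [p'le 0 (by omega), h0], ?_, ?_, ?_⟩
    · intro i hi k hk hik
      have ci : i ≤ 2 * s ∨ i = 2 * s + 1 ∨ i = 2 * s + 2 := by omega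
      have ck : k ≤ 2 * s ∨ k = 2 * s + 1 ∨ k = 2 * s + 2 := by omega
      rcases ci with ci | rfl | rfl <;> rcases ck with ck | rfl | rfl
      · rw [p'le _ ci, p'le _ ck] at hik
        exact hinj _ ci _ ck hik
      · rw [p'le _ ci, p'y] at hik
        exact absurd hik (y1 _ ci)
      · rw [p'le _ ci, p'z] at hik
        exact absurd hik (z1 _ ci)
      · rw [p'le _ ck, p'y] at hik
        exact absurd hik.symm (y1 _ ck)
      · rfl
      · rw [p'y, p'z] at hik
        exact absurd hik.symm hny
      · rw [p'le _ ck, p'z] at hik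
        exact absurd hik.symm (z1 _ ck)
      · rw [p'y, p'z] at hik
        exact absurd hik hny
      · rfl
    · intro i hi
      by_cases his : i = s
      · subst his
        rw [p'y, p'le _ le_rfl]
      · rw [p'le _ (by omega), p'le _ (by omega), ho i (by omega)]
    · intro i hi
      by_cases his : i = s
      · subst his
        rw [p'y, p'z]
      · rw [p'le _ (by omega), p'le _ (by omega), he i (by omega)]

theorem alt_path {m n : V → V} (hm : IsMaximum G m) (hn : IsMaximum G n) (x : V) (hx : n x = x) :
    ∃ s p, Alt m n x s p ∧ m (p (2 * s)) = p (2 * s) := by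
  by_contra hcon
  push Not at hcon
  have h : ∀ s, ∃ p, Alt m n x s p := by
    intro s
    induction s with
    | zero =>
      refine ⟨fun _ => x, rfl, ?_, ?_, ?_⟩
      · intro i hi k hk _
        omega
      · intro i hi; omega
      · intro i hi; omega
    | succ s ih =>
      obtain ⟨p, hp⟩ := ih
      exact alt_step hm hn x hx s p hp (hcon s p hp)
  obtain ⟨p, -, hinj, -, -⟩ := h (Nat.card V)
  have hc : Nat.card (Fin (2 * Nat.card V + 1)) ≤ Nat.card V := by
    apply Nat.card_le_card_of_injective (fun i : Fin (2 * Nat.card V + 1) => p i.val)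
    intro a b hab
    exact Fin.ext (hinj _ (by omega) _ (by omega) hab)
  rw [Nat.card_eq_fintype_card, Fintype.card_fin] at hc
  omega

end Pool.Agent.Q223.Flower
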