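import Pool.Agent.Q223.Flower.Reach

namespace Pool.Agent.Q223.Flower

open Function

variable {V : Type*} [Finite V] {G : SimpleGraph V}

theorem exists_rep (σ : Equiv.Perm V) (x0 : V) :
    ∃ rep : V → V, (∀ v, ∃ i : ℕ, σ^[i] (rep v) = v) ∧ (∀ v, rep (σ v) = rep v) ∧
      rep x0 = x0 := by
  classical
  let S := Equiv.Perm.SameCycle.setoid σ
  set rep : V → V := fun v => if σ.SameCycle x0 v then x0 else
    Quotient.out (Quotient.mk S v) with hrep
  have h1 : ∀ v, σ.SameCycle (rep v) v := by
    intro v
    simp only [hrep]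
    by_cases h : σ.SameCycle x0 v
    · rw [if_pos h]; exact h
    · rw [if_neg h]
      exact Quotient.exact (Quotient.out_eq (Quotient.mk S v))
  refine ⟨rep, ?_, ?_, ?_⟩
  · intro v
    obtain ⟨i, hi⟩ := (h1 v).exists_nat_pow_eq
    exact ⟨i, by rw [Equiv.Perm.iterate_eq_pow]; exact hi⟩
  · intro v
    have h2 : σ.SameCycle v (σ v) := (Equiv.Perm.SameCycle.refl σ v).apply_right
    have h3 : (Quotient.mk S (σ v)) = Quotient.mk S v := Quotient.sound h2.symm
    simp only [hrep]
    rw [h3]
    by_cases h : σ.SameCycle x0 v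
    · rw [if_pos h, if_pos (h.trans h2)]
    · rw [if_neg h, if_neg (fun h' => h (h'.trans h2.symm))]
  · simp only [hrep]
    rw [if_pos (Equiv.Perm.SameCycle.refl σ x0)]

omit [Finite V] in
theorem rep_iter {σ : Equiv.Perm V} {rep : V → V} (h : ∀ v, rep (σ v) = rep v) (k : ℕ) (v : V) :
    rep (σ^[k] v) = rep v := by
  induction k with
  | zero => rfl
  | succ k ih => rw [iterate_succ_apply', h, ih]

theorem exists_maximum (G : SimpleGraph V) : ∃ m : V → V, IsMaximum G m := by
  have hne : ({m : V → V | IsMatching G m}).Nonempty :=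
    ⟨id, fun v => rfl, fun v h => absurd rfl h⟩
  obtain ⟨m, hm, hmin⟩ := Set.exists_min_image {m : V → V | IsMatching G m}
    (fun m => (uncovered m).ncard) (Set.toFinite _) hne
  exact ⟨m, hm, hmin⟩

theorem special_of_perm (hG : RDisjoint G) (σ : Equiv.Perm V) (hσ : ∀ v, G.Adj v (σ v))
    (x0 : V) : ∃ m, Special G m ∧ m x0 = σ x0 := by
  classical
  obtain ⟨rep, hr1, hr2, hr3⟩ := exists_rep σ x0
  set per : V → ℕ := fun v => minimalPeriod σ (rep v) with hper
  set idx : V → ℕ := fun v => Nat.find (hr1 v) with hidx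
  have hsn : ∀ v, σ v ≠ v := fun v h => G.ne_of_adj (hσ v) h.symm
  have hpp : ∀ v, 0 < minimalPeriod σ v := fun v =>
    minimalPeriod_pos_of_mem_periodicPts (σ.injective.mem_periodicPts v)
  have hp2 : ∀ v, 2 ≤ minimalPeriod σ v := by
    intro v
    have h1 := hpp v
    have h2 : minimalPeriod σ v ≠ 1 := by
      rw [Ne, minimalPeriod_eq_one_iff_isFixedPt]
      exact hsn v
    omega
  have hi1 : ∀ v, σ^[idx v] (rep v) = v := fun v => Nat.find_spec (hr1 v)
  have hi2 : ∀ v, idx v < per v := by
    intro v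
    have h1 : σ^[idx v % minimalPeriod σ (rep v)] (rep v) = v := by
      rw [iterate_mod_minimalPeriod_eq, hi1]
    have h2 : idx v ≤ idx v % minimalPeriod σ (rep v) := Nat.find_min' (hr1 v) h1
    have h3 : idx v % minimalPeriod σ (rep v) < minimalPeriod σ (rep v) := Nat.mod_lt _ (hpp _)
    simp only [hper]
    omega
  have hi3 : ∀ v i, i < per v → σ^[i] (rep v) = v → idx v = i := by
    intro v i hi h
    have := iterate_injOn_Iio_minimalPeriod (f := σ) (x := rep v) (hi2 v) hi
      (by simp only; rw [hi1, h])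
    exact this
  have hrr : ∀ v, rep (rep v) = rep v := by
    intro v
    have := rep_iter hr2 (idx v) (rep v)
    rw [hi1] at this
    exact this.symm
  have hs_rep : ∀ v, rep (σ.symm v) = rep v := by
    intro v
    have := hr2 (σ.symm v)
    rw [Equiv.apply_symm_apply] at this
    exact this.symm
  have hper_s : ∀ v, per (σ v) = per v := by
    intro v; simp only [hper, hr2]
  have hper_s' : ∀ v, per (σ.symm v) = per v := by
    intro v; simp only [hper, hs_rep]
  have hidx_s : ∀ v, idx v + 1 < per v → idx (σ v) = idx v + 1 := by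
    intro v hv
    apply hi3 (σ v) (idx v + 1) (by rw [hper_s]; exact hv)
    rw [hr2, iterate_succ_apply', hi1]
  have hidx_s' : ∀ v, 1 ≤ idx v → idx (σ.symm v) + 1 = idx v := by
    intro v hv
    have h1 : idx (σ.symm v) = idx v - 1 := by
      apply hi3 (σ.symm v) (idx v - 1)
      · rw [hper_s']
        have := hi2 v
        omega
      · rw [hs_rep]
        apply σ.injective
        rw [Equiv.apply_symm_apply, ← iterate_succ_apply' σ, Nat.succ_eq_add_one,
          Nat.sub_add_cancel hv, hi1]
    omega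
  set m : V → V := fun v => if idx v % 2 = 1 then σ.symm v else
    if idx v + 1 < per v then σ v else v with hm
  have m1 : ∀ v, idx v % 2 = 1 → m v = σ.symm v := by
    intro v h; simp only [hm]; rw [if_pos h]
  have m2 : ∀ v, idx v % 2 = 0 → idx v + 1 < per v → m v = σ v := by
    intro v h h'; simp only [hm]; rw [if_neg (by omega), if_pos h']
  have m3 : ∀ v, idx v % 2 = 0 → ¬ idx v + 1 < per v → m v = v := by
    intro v h h'; simp only [hm]; rw [if_neg (by omega), if_neg h']
  have hmat : IsMatching G m := by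
    constructor
    · intro v
      by_cases h1 : idx v % 2 = 1
      · have h2 := hidx_s' v (by omega)
        have h3 := hi2 v
        rw [m1 v h1, m2 (σ.symm v) (by omega) (by rw [hper_s']; omega), Equiv.apply_symm_apply]
      · by_cases h2 : idx v + 1 < per v
        · have h3 := hidx_s v h2
          rw [m2 v (by omega) h2, m1 (σ v) (by omega), Equiv.symm_apply_apply]
        · rw [m3 v (by omega) h2, m3 v (by omega) h2]
    · intro v hv
      by_cases h1 : idx v % 2 = 1
      · rw [m1 v h1]
        have := hσ (σ.symm v)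
        rw [Equiv.apply_symm_apply] at this
        exact this.symm
      · by_cases h2 : idx v + 1 < per v
        · rw [m2 v (by omega) h2]
          exact hσ v
        · exact absurd (m3 v (by omega) h2) hv
  -- uncovered vertices
  have hunc : ∀ v, m v = v → idx v % 2 = 0 ∧ idx v + 1 = per v := by
    intro v hv
    by_cases h1 : idx v % 2 = 1
    · exfalso
      rw [m1 v h1] at hv
      have : σ (σ.symm v) = σ v := by rw [hv]
      rw [Equiv.apply_symm_apply] at this
      exact hsn v this.symm
    · by_cases h2 : idx v + 1 < per v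
      · exfalso
        rw [m2 v (by omega) h2] at hv
        exact hsn v hv
      · have := hi2 v
        exact ⟨by omega, by omega⟩
  -- the odd cycle through an uncovered vertex
  have hcyc : ∀ v, m v = v → ∃ (t : ℕ) (c : ZMod (2 * t + 1) → V), IsOddCycle G t c ∧
      (∀ i, m (c i) ∈ Set.range c) ∧ v ∈ Set.range c ∧ ∀ i, rep (c i) = rep v := by
    intro v hv
    obtain ⟨h1, h2⟩ := hunc v hv
    have h3 := hp2 (rep v)
    obtain ⟨t, ht⟩ : ∃ t, minimalPeriod σ (rep v) = 2 * t + 1 := by
      refine ⟨idx v / 2, ?_⟩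
      simp only [hper] at h2
      omega
    have ht1 : 1 ≤ t := by omega
    have hmod : ∀ k : ℕ, σ^[k % (2 * t + 1)] (rep v) = σ^[k] (rep v) := by
      intro k
      rw [← ht, iterate_mod_minimalPeriod_eq]
    have hinj : ∀ a b : ℕ, a < 2 * t + 1 → b < 2 * t + 1 → σ^[a] (rep v) = σ^[b] (rep v) →
        a = b := by
      intro a b ha hb hab
      rw [← ht] at ha hb
      exact iterate_injOn_Iio_minimalPeriod (f := σ) (x := rep v) ha hb hab
    set c : ZMod (2 * t + 1) → V := fun i => σ^[i.val] (rep v) with hc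
    have hcs : ∀ i, c (i + 1) = σ (c i) := by
      intro i
      simp only [hc]
      rw [ZMod.val_add, ZMod.val_one_eq_one_mod, Nat.mod_eq_of_lt (by omega : 1 < 2 * t + 1),
        ← iterate_succ_apply' σ, hmod]
    have hrange : ∀ k : ℕ, σ^[k] (rep v) ∈ Set.range c := by
      intro k
      refine ⟨(k : ZMod (2 * t + 1)), ?_⟩
      simp only [hc]
      rw [ZMod.val_natCast, hmod]
    refine ⟨t, c, ⟨ht1, ?_, ?_⟩, ?_, ?_, ?_⟩
    · intro a b hab
      have ha := ZMod.val_lt a
      have hb := ZMod.val_lt b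
      exact ZMod.val_injective _ (hinj _ _ ha hb hab)
    · intro i
      rw [hcs]
      exact hσ _
    · intro i
      by_cases g1 : idx (c i) % 2 = 1
      · rw [m1 _ g1]
        refine ⟨i - 1, ?_⟩
        have := hcs (i - 1)
        rw [sub_add_cancel] at this
        rw [this, Equiv.symm_apply_apply]
      · by_cases g2 : idx (c i) + 1 < per (c i)
        · rw [m2 _ (by omega) g2]
          exact ⟨i + 1, hcs i⟩
        · rw [m3 _ (by omega) g2]
          exact ⟨i, rfl⟩
    · have := hrange (idx v)
      rwa [hi1] at this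
    · intro i
      simp only [hc]
      rw [rep_iter hr2, hrr]
  obtain ⟨m0, hm0⟩ := exists_maximum G
  have hchoice : ∀ v : V, ∃ e : V, m v = v → (m0 e = e ∧ ∃ (t : ℕ) (c : ZMod (2 * t + 1) → V),
      IsOddCycle G t c ∧ e ∈ reach G (cycleEdges t c) ∧ ∀ i, rep (c i) = rep v) := by
    intro v
    by_cases hv : m v = v
    · obtain ⟨t, c, hc, -, -, hrep⟩ := hcyc v hv
      obtain ⟨e, he, he'⟩ := exists_uncovered hm0 (cycleEdges t c) (hG.2.1 _ ⟨t, c, hc, rfl⟩)
      exact ⟨e, fun _ => ⟨he', t, c, hc, he, hrep⟩⟩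
    · exact ⟨v, fun h => absurd h hv⟩
  choose e he using hchoice
  have hle : (uncovered m).ncard ≤ (uncovered m0).ncard := by
    apply Set.ncard_le_ncard_of_injOn e _ _ (Set.toFinite _)
    · intro v hv
      exact (he v hv).1
    · intro v hv w hw hvw
      obtain ⟨-, t, c, hc, hec, hrep⟩ := he v hv
      obtain ⟨-, t', c', hc', hec', hrep'⟩ := he w hw
      have hE : cycleEdges t c = cycleEdges t' c' := by
        by_contra hne
        have := hG.2.2 _ ⟨t, c, hc, rfl⟩ _ ⟨t', c', hc', rfl⟩ hne
        rw [← hvw] at hec'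
        exact Set.disjoint_left.mp this hec hec'
      obtain ⟨i, hi⟩ := range_of_edges hE 0
      have hrr' : rep v = rep w := by
        rw [← hrep 0, ← hi, hrep' i]
      obtain ⟨-, a2⟩ := hunc v hv
      obtain ⟨-, b2⟩ := hunc w hw
      have hpe : per v = per w := by simp only [hper, hrr']
      have hid : idx v = idx w := by omega
      rw [← hi1 v, ← hi1 w, hid, hrr']
  refine ⟨m, ⟨⟨hmat, fun m' hm' => le_trans hle (hm0.2 m' hm')⟩, ?_⟩, ?_⟩
  · intro b hb
    obtain ⟨t, c, h1, h2, h3, -⟩ := hcyc b hb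
    exact ⟨t, c, h1, h2, h3⟩
  · have h0 : idx x0 = 0 := by
      apply hi3 x0 0
      · have := hp2 (rep x0)
        simp only [hper]
        omega
      · rw [hr3]; rfl
    apply m2 x0 (by omega)
    have := hp2 (rep x0)
    simp only [hper]
    omega

/-- The reach sets are invariant under every permutation that moves vertices along edges. -/
theorem perm_reach (hG : RDisjoint G) (σ : Equiv.Perm V) (hσ : ∀ v, G.Adj v (σ v))
    (E : Set (Sym2 V)) (hE : E ∈ oddCycles G) (x : V) (hx : x ∈ reach G E) :
    σ x ∈ reach G E := by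
  obtain ⟨m, hm, hmx⟩ := special_of_perm hG σ hσ x
  rw [← hmx]
  exact reach_closed hG hm E hE x hx

theorem perm_reach_iff (hG : RDisjoint G) (σ : Equiv.Perm V) (hσ : ∀ v, G.Adj v (σ v))
    (E : Set (Sym2 V)) (hE : E ∈ oddCycles G) (x : V) :
    σ x ∈ reach G E ↔ x ∈ reach G E := by
  refine ⟨fun h => ?_, perm_reach hG σ hσ E hE x⟩
  have h1 : ∀ v, G.Adj v (σ.symm v) := by
    intro v
    have := hσ (σ.symm v)
    rw [Equiv.apply_symm_apply] at this
    exact this.symm
  have := perm_reach hG σ.symm h1 E hE _ h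
  rwa [Equiv.symm_apply_apply] at this

end Pool.Agent.Q223.Flower
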