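import Pool.Agent.Q223.Flower.Flow

namespace Pool.Agent.Q223.Flower

variable {V : Type*} [Finite V] {G : SimpleGraph V}

omit [Finite V] in
theorem stem_pattern {m : V → V} (hm : IsMatching G m) {t : ℕ} {c : ZMod (2 * t + 1) → V}
    {s : ℕ} {p : ℕ → V} (h : IsFlower G m t c s p) : ∀ i < s, m (p (2 * i)) = p (2 * i + 1) := by
  have key : ∀ d < s, m (p (2 * (s - 1 - d))) = p (2 * (s - 1 - d) + 1) := by
    intro d
    induction d with
    | zero =>
      intro hs
      have h1 := h.alternating (2 * (s - 1)) (by omega)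
      rw [Nat.sub_zero, h1]
      intro h2
      have e : 2 * (s - 1) + 2 = 2 * s := by omega
      rw [e] at h2
      have h3 : m (p (2 * s)) = p (2 * (s - 1) + 1) := by rw [← h2, hm.1]
      rw [h.end_uncovered] at h3
      have := h.path_inj _ le_rfl _ (by omega) h3
      omega
    | succ d ih =>
      intro hd
      have h0 := ih (by omega)
      set i := s - 1 - (d + 1) with hi
      have e : s - 1 - d = i + 1 := by omega
      rw [e] at h0
      have h1 := h.alternating (2 * i + 1) (by omega)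
      have h2 := h.alternating (2 * i) (by omega)
      rw [h2]
      intro h3
      rw [h1] at h3
      exact h3 h0
  intro i hi
  have := key (s - 1 - i) (by omega)
  have e : s - 1 - (s - 1 - i) = i := by omega
  rwa [e] at this

omit [Finite V] in
theorem blossom_pattern {m : V → V} (hm : IsMatching G m) {t : ℕ} (ht : 1 ≤ t)
    {c : ZMod (2 * t + 1) → V} (hb : {i | m (c i) = c (i + 1)}.ncard = t)
    (hc : Function.Injective c)
    (j : ZMod (2 * t + 1)) (h1 : m (c j) ≠ c (j + 1)) (h2 : m (c j) ≠ c (j - 1)) :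
    ∀ i, i ≠ j → m (c i) = c (i + 1) ∨ m (c i) = c (i - 1) := by
  intro i hij
  by_contra hcon
  push Not at hcon
  set I : Set (ZMod (2 * t + 1)) := {i | m (c i) = c (i + 1)} with hI
  set J : Set (ZMod (2 * t + 1)) := (fun k => 1 + k) '' I with hJ
  have hJc : J.ncard = t := by
    rw [hJ, Set.ncard_image_of_injective _ (add_right_injective 1), hb]
  have hJm : ∀ k ∈ J, m (c k) = c (k - 1) := by
    rintro k ⟨k', hk', rfl⟩
    have h3 : m (c k') = c (k' + 1) := hk'
    simp only
    rw [show (1 : ZMod (2 * t + 1)) + k' = k' + 1 by ring, ← h3, hm.1, add_sub_cancel_right]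
  have hd : Disjoint I J := by
    rw [Set.disjoint_left]
    intro k hk hk'
    have h3 := hJm k hk'
    have h4 : m (c k) = c (k + 1) := hk
    rw [h4] at h3
    exact two_ne t ht k (hc h3)
  have hU : (I ∪ J).ncard = 2 * t := by
    rw [Set.ncard_union_eq hd, hb, hJc]; ring
  have hd2 : Disjoint (I ∪ J) {i, j} := by
    rw [Set.disjoint_left]
    intro k hk hk'
    rcases hk' with rfl | hk'
    · rcases hk with hk | hk
      · exact hcon.1 hk
      · exact hcon.2 (hJm _ hk)
    · have : k = j := hk'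
      subst this
      rcases hk with hk | hk
      · exact h1 hk
      · exact h2 (hJm _ hk)
  have h5 : ((I ∪ J) ∪ {i, j}).ncard = 2 * t + 2 := by
    rw [Set.ncard_union_eq hd2, hU, Set.ncard_pair hij]
  have h6 : ((I ∪ J) ∪ {i, j}).ncard ≤ Nat.card (ZMod (2 * t + 1)) := Set.ncard_le_card _
  rw [Nat.card_zmod] at h6
  omega

/-- A flower gives a maximum matching that preserves the blossom and exposes its base. -/
theorem base_exposed {m : V → V} (hm : IsMaximum G m) {t : ℕ} {c : ZMod (2 * t + 1) → V}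
    {s : ℕ} {p : ℕ → V} (h : IsFlower G m t c s p) :
    ∃ n, IsMaximum G n ∧ (∀ i, n (c i) ∈ Set.range c) ∧ ∃ j, n (c j) = c j := by
  have hp := stem_pattern hm.1 h
  obtain ⟨j, hj, hb1, hb2⟩ := h.base
  have hbp := blossom_pattern hm.1 h.cycle.1 h.blossom h.cycle.2.1 j hb1 hb2
  obtain ⟨n, hn, h1, h2⟩ := switch_bwd hm s p h.path_inj h.end_uncovered hp
    (fun i hi => h.path_adj _ (by omega))
  refine ⟨n, hn, ?_, ⟨j, by rw [← hj]; exact h1⟩⟩
  intro i
  by_cases hij : i = j
  · subst hij
    rw [← hj, h1, hj]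
    exact ⟨i, rfl⟩
  · rw [h2]
    · rcases hbp i hij with h3 | h3
      · exact ⟨_, h3.symm⟩
      · exact ⟨_, h3.symm⟩
    · intro k hk hik
      have := h.meets k hk ⟨i, hik⟩
      subst this
      rw [hj] at hik
      exact hij (h.cycle.2.1 hik)

omit [Finite V] in
theorem range_of_edges {t t' : ℕ} {c : ZMod (2 * t + 1) → V} {c' : ZMod (2 * t' + 1) → V}
    (h : cycleEdges t c = cycleEdges t' c') (i : ZMod (2 * t + 1)) : c i ∈ Set.range c' := by
  have h1 : s(c i, c (i + 1)) ∈ cycleEdges t c := ⟨i, rfl⟩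
  rw [h] at h1
  obtain ⟨k, hk⟩ := h1
  simp only [Sym2.eq_iff] at hk
  rcases hk with ⟨h1, h2⟩ | ⟨h1, h2⟩
  · exact ⟨_, h1⟩
  · exact ⟨_, h2⟩

omit [Finite V] in
/-- The vertices of an odd cycle are in its reach set, if that set is not empty. -/
theorem cycle_subset_reach {t : ℕ} {c : ZMod (2 * t + 1) → V}
    (h : (reach G (cycleEdges t c)).Nonempty) (i : ZMod (2 * t + 1)) :
    c i ∈ reach G (cycleEdges t c) := by
  obtain ⟨v, m, t', c', s, p, hm, hf, he, -⟩ := h
  exact ⟨m, t', c', s, p, hm, hf, he, Or.inl (range_of_edges he.symm i)⟩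

/-- Every maximum matching leaves a vertex of each non-empty reach set uncovered. -/
theorem exists_uncovered {m : V → V} (hm : IsMaximum G m) (E : Set (Sym2 V))
    (hE : (reach G E).Nonempty) : ∃ e ∈ reach G E, m e = e := by
  obtain ⟨v, m', t, c, s', p', hm', hf, he, -⟩ := hE
  obtain ⟨n, hn, hcl, j, hj⟩ := base_exposed hm' hf
  obtain ⟨s, p, ⟨h0, hinj, ho, hev⟩, hend⟩ := alt_path hm hn (c j) hj
  classical
  -- last index on the cycle
  have hex : ∃ i, i ≤ 2 * s ∧ p (2 * s - i) ∈ Set.range c :=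
    ⟨2 * s, le_rfl, by rw [Nat.sub_self, h0]; exact ⟨j, rfl⟩⟩
  set d := Nat.find hex with hd
  obtain ⟨hd1, hd2⟩ := Nat.find_spec hex
  rw [← hd] at hd1 hd2
  have hlast : ∀ k ≤ 2 * s, 2 * s - d < k → p k ∉ Set.range c := by
    intro k hk hk' hin
    have hlt : 2 * s - k < d := by omega
    refine Nat.find_min hex hlt ⟨by omega, ?_⟩
    rwa [show 2 * s - (2 * s - k) = k by omega]
  set i0 := 2 * s - d with hi0
  obtain ⟨a, ha⟩ : ∃ a, i0 = 2 * a := by
    rcases Nat.even_or_odd' i0 with ⟨a, h | h⟩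
    · exact ⟨a, h⟩
    · exfalso
      have has : a < s := by omega
      apply hlast (2 * a + 2) (by omega) (by omega)
      rw [hev a has, ← h]
      obtain ⟨i, hi⟩ := hd2
      rw [← hi]
      exact hcl i
  have hgood : Good G n t c (s - a) (fun k => p (2 * a + k)) := by
    refine ⟨hf.cycle, hcl, ⟨j, hj⟩, ?_, ?_, ?_, ?_, ?_⟩
    · simp only [Nat.add_zero]
      rw [← ha]; exact hd2
    · intro i hi hin
      by_contra hne
      exact hlast (2 * a + i) (by omega) (by omega) hin
    · intro i hi k hk hik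
      have := hinj _ (by omega) _ (by omega) hik
      omega
    · intro i hi
      have := hev (a + i) (by omega)
      have e1 : 2 * a + (2 * i + 1) = 2 * (a + i) + 1 := by ring
      have e2 : 2 * a + (2 * i + 2) = 2 * (a + i) + 2 := by ring
      simp only [e1, e2]
      exact this.symm
    · intro i hi
      have h1 := ho (a + i) (by omega)
      have e1 : 2 * a + (2 * i + 1) = 2 * (a + i) + 1 := by ring
      have e2 : 2 * a + (2 * i) = 2 * (a + i) := by ring
      simp only [e1, e2]
      rw [h1]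
      apply hm.1.2
      rw [← h1]
      intro h2
      have := hinj _ (by omega) _ (by omega) h2
      omega
  have := (good_subset_reach hn hgood).2 (2 * (s - a)) le_rfl
  rw [show 2 * a + 2 * (s - a) = 2 * s by omega, he] at this
  exact ⟨p (2 * s), this, hend⟩

/-- Maximum matchings all of whose uncovered vertices are on odd cycles which they preserve. -/
def Special (G : SimpleGraph V) (m : V → V) : Prop :=
  IsMaximum G m ∧ ∀ b, m b = b → ∃ (t : ℕ) (c : ZMod (2 * t + 1) → V), IsOddCycle G t c ∧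
    (∀ i, m (c i) ∈ Set.range c) ∧ b ∈ Set.range c

/-- A vertex exposed by some maximum matching is the end of a good path of a special matching. -/
theorem good_of_exposed {m n : V → V} (hm : Special G m) (hn : IsMaximum G n) (v : V)
    (hv : n v = v) : ∃ (t : ℕ) (c : ZMod (2 * t + 1) → V) (s : ℕ) (p : ℕ → V),
      Good G m t c s p ∧ p (2 * s) = v := by
  classical
  obtain ⟨s, q, ⟨h0, hinj, ho, hev⟩, hend⟩ := alt_path hm.1 hn v hv
  obtain ⟨t, c, hc, hcl, hb⟩ := hm.2 _ hend
  have hex : ∃ i, q i ∈ Set.range c := ⟨2 * s, hb⟩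
  set i0 := Nat.find hex with hi0
  have h1 : q i0 ∈ Set.range c := Nat.find_spec hex
  have h2 : ∀ k < i0, q k ∉ Set.range c := fun k hk => Nat.find_min hex hk
  have hle : i0 ≤ 2 * s := Nat.find_min' hex hb
  obtain ⟨h, hh⟩ : ∃ h, i0 = 2 * h := by
    rcases Nat.even_or_odd' i0 with ⟨a, ha | ha⟩
    · exact ⟨a, ha⟩
    · exfalso
      apply h2 (2 * a) (by omega)
      have h3 := ho a (by omega)
      rw [← ha] at h3
      obtain ⟨i, hi⟩ := h1
      have h4 := hcl i
      rw [hi, h3, hm.1.1.1] at h4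
      exact h4
  refine ⟨t, c, h, fun k => q (2 * h - k), ⟨hc, hcl, ?_, ?_, ?_, ?_, ?_, ?_⟩, ?_⟩
  · obtain ⟨i, hi⟩ := hb
    exact ⟨i, by rw [hi]; exact hend⟩
  · simp only [Nat.sub_zero]
    rw [← hh]; exact h1
  · intro i hi hin
    by_contra hne
    exact h2 (2 * h - i) (by omega) hin
  · intro i hi k hk hik
    have := hinj _ (by omega) _ (by omega) hik
    omega
  · intro i hi
    have e1 : 2 * h - (2 * i + 1) = 2 * (h - i - 1) + 1 := by omega
    have e2 : 2 * h - (2 * i + 2) = 2 * (h - i - 1) := by omega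
    simp only [e1, e2]
    rw [ho _ (by omega), hm.1.1.1]
  · intro i hi
    have e1 : 2 * h - (2 * i) = 2 * (h - i - 1) + 2 := by omega
    have e2 : 2 * h - (2 * i + 1) = 2 * (h - i - 1) + 1 := by omega
    simp only [e1, e2]
    have h3 := hev (h - i - 1) (by omega)
    rw [h3]
    refine (hn.1.2 _ ?_).symm
    rw [← h3]
    intro h4
    have := hinj _ (by omega) _ (by omega) h4
    omega
  · simp only [Nat.sub_self]
    exact h0

/-- In a good path everything stays in the reach set under the matching. -/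
theorem good_mem_reach {m : V → V} (hm : IsMaximum G m) {t : ℕ} {c : ZMod (2 * t + 1) → V}
    {s : ℕ} {p : ℕ → V} (h : Good G m t c s p) (v : V)
    (hv : v ∈ Set.range c ∨ ∃ i ≤ 2 * s, v = p i) : m v ∈ reach G (cycleEdges t c) := by
  obtain ⟨g1, g2⟩ := good_subset_reach hm h
  have hcyc : ∀ v ∈ Set.range c, m v ∈ reach G (cycleEdges t c) := by
    rintro _ ⟨i, rfl⟩
    obtain ⟨k, hk⟩ := h.closed i
    rw [← hk]; exact g1 k
  rcases hv with hv | ⟨i, hi, rfl⟩
  · exact hcyc v hv
  · rcases Nat.even_or_odd' i with ⟨k, rfl | rfl⟩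
    · rcases k with _ | k
      · exact hcyc _ h.start
      · have h1 := h.pair k (by omega)
        have h2 : m (p (2 * (k + 1))) = p (2 * k + 1) := by
          rw [show 2 * (k + 1) = 2 * k + 2 by ring, ← h1, hm.1.1]
        rw [h2]
        exact g2 _ (by omega)
    · rw [h.pair k (by omega)]
      exact g2 _ (by omega)

/-- Reach sets are preserved by special matchings. -/
theorem reach_closed (hG : RDisjoint G) {m : V → V} (hm : Special G m) (E : Set (Sym2 V))
    (hE : E ∈ oddCycles G) (x : V) (hx : x ∈ reach G E) : m x ∈ reach G E := by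
  -- a vertex exposed by a maximum matching
  have hD : ∀ v ∈ reach G E, (∃ n, IsMaximum G n ∧ n v = v) →
      ∃ (t : ℕ) (c : ZMod (2 * t + 1) → V) (s : ℕ) (p : ℕ → V),
      Good G m t c s p ∧ p (2 * s) = v ∧ cycleEdges t c = E := by
    rintro v hv ⟨n, hn, hnv⟩
    obtain ⟨t, c, s, p, hg, hp⟩ := good_of_exposed hm hn v hnv
    refine ⟨t, c, s, p, hg, hp, ?_⟩
    by_contra hne
    have h1 := hG.2.2 _ ⟨t, c, hg.cycle, rfl⟩ E hE hne
    have h2 := (good_subset_reach hm.1 hg).2 _ le_rfl
    rw [hp] at h2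
    exact Set.disjoint_left.mp h1 h2 hv
  have hD' : (∃ n, IsMaximum G n ∧ n x = x) → m x ∈ reach G E := by
    intro h
    obtain ⟨t, c, s, p, hg, hp, he⟩ := hD x hx h
    rw [← he]
    exact good_mem_reach hm.1 hg x (Or.inr ⟨_, le_rfl, hp.symm⟩)
  obtain ⟨n, t, c, s, p, hn, hf, he, hx'⟩ := id hx
  have hpat := stem_pattern hn.1 hf
  have hexp : ∀ l ≤ s, ∃ n', IsMaximum G n' ∧ n' (p (2 * l)) = p (2 * l) := by
    intro l hl
    obtain ⟨n', hn', h1, -⟩ := switch_bwd hn (s - l) (fun k => p (2 * l + k))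
      (by
        intro i hi k hk hik
        have := hf.path_inj _ (by omega) _ (by omega) hik
        omega)
      (by
        rw [show 2 * l + 2 * (s - l) = 2 * s by omega]
        exact hf.end_uncovered)
      (by
        intro i hi
        have := hpat (l + i) (by omega)
        have e1 : 2 * l + 2 * i = 2 * (l + i) := by ring
        have e2 : 2 * l + (2 * i + 1) = 2 * (l + i) + 1 := by ring
        simp only [e1, e2]
        exact this)
      (by
        intro i hi
        have := hf.path_adj (2 * l + (2 * i + 1)) (by omega)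
        exact this)
    exact ⟨n', hn', by simpa using h1⟩
  rcases hx' with hx' | ⟨i, hi, rfl⟩
  · -- on the cycle
    apply hD'
    obtain ⟨n', hn', hcl, hex⟩ := base_exposed hn hf
    obtain ⟨j, rfl⟩ := hx'
    obtain ⟨n'', hn'', r1, -⟩ := rotate hn' hf.cycle hcl hex j
    refine ⟨n'', hn'', ?_⟩
    have := r1 0
    rwa [rho_zero, add_zero] at this
  · rcases Nat.even_or_odd' i with ⟨k, rfl | rfl⟩
    · exact hD' (hexp k (by omega))
    · -- odd vertex of the stem
      have hk : k < s := by omega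
      have hv : p (2 * k) ∈ reach G E := ⟨n, t, c, s, p, hn, hf, he, Or.inr ⟨_, by omega, rfl⟩⟩
      obtain ⟨t', c', s', p', hg, hp, he'⟩ := hD _ hv (hexp k (by omega))
      have hadj : G.Adj (p' (2 * s')) (p (2 * k + 1)) := by
        rw [hp]; exact hf.path_adj _ (by omega)
      by_cases hw : p (2 * k + 1) ∈ Set.range c' ∨ ∃ i ≤ 2 * s', p (2 * k + 1) = p' i
      · rw [← he']
        exact good_mem_reach hm.1 hg _ hw
      · push Not at hw
        obtain ⟨p'', hg', h1, h2⟩ := good_extend hm.1 hg _ hw.1 hw.2 hadj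
        have := (good_subset_reach hm.1 hg').2 (2 * s' + 2) (by omega)
        rw [h2, he'] at this
        exact this

end Pool.Agent.Q223.Flower
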