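import Pool.Agent.Q223.Flower.Path

namespace Pool.Agent.Q223.Flower

variable {V : Type*} [Finite V] {G : SimpleGraph V}

/-- involution of `Fin (2 s + 1)` pairing `2 i` and `2 i + 1` and fixing `2 s` -/
def pairUp1 (s : ℕ) (i : Fin (2 * s + 1)) : Fin (2 * s + 1) :=
  ⟨if i.val = 2 * s then 2 * s else if i.val % 2 = 0 then i.val + 1 else i.val - 1, by
    have := i.isLt
    split_ifs with h h' <;> omega⟩

theorem pairUp1_invol (s : ℕ) (i : Fin (2 * s + 1)) : pairUp1 s (pairUp1 s i) = i := by
  have := i.isLt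
  apply Fin.ext
  simp only [pairUp1]
  by_cases h0 : i.val = 2 * s
  · simp [h0]
  · by_cases h : i.val % 2 = 0
    · have h2 : ¬ (i.val + 1) % 2 = 0 := by omega
      have h3 : ¬ (i.val + 1) = 2 * s := by omega
      simp only [h0, h, if_true, h2, if_false, h3]
      omega
    · have h2 : (i.val - 1) % 2 = 0 := by omega
      have h3 : ¬ (i.val - 1) = 2 * s := by omega
      simp only [h0, h, if_false, h2, if_true, h3]
      omega

theorem switch_fwd {m : V → V} (hm : IsMaximum G m) (s : ℕ) (p : ℕ → V)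
    (hinj : ∀ i ≤ 2 * s, ∀ k ≤ 2 * s, p i = p k → i = k) (h0 : m (p 0) = p 0)
    (hp : ∀ i < s, m (p (2 * i + 1)) = p (2 * i + 2))
    (hadj : ∀ i < s, G.Adj (p (2 * i)) (p (2 * i + 1))) :
    ∃ n : V → V, IsMaximum G n ∧ (∀ i < s, n (p (2 * i)) = p (2 * i + 1)) ∧
      n (p (2 * s)) = p (2 * s) ∧ (∀ v, (∀ i ≤ 2 * s, v ≠ p i) → n v = m v) := by
  have hp' : ∀ i < s, m (p (2 * i + 2)) = p (2 * i + 1) := by
    intro i hi
    rw [← hp i hi, hm.1.1]
  obtain ⟨n, hn, h1, h2⟩ := glue1 hm (fun i : Fin (2 * s + 1) => p i.val)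
    (by
      intro a b hab
      have ha := a.isLt
      have hb := b.isLt
      exact Fin.ext (hinj _ (by omega) _ (by omega) hab))
    (by
      intro i
      have hi := i.isLt
      simp only [Set.mem_range]
      rcases Nat.even_or_odd' i.val with ⟨j, hj | hj⟩
      · rcases j with _ | j
        · refine ⟨⟨0, by omega⟩, ?_⟩
          rw [hj]
          exact h0.symm
        · refine ⟨⟨2 * j + 1, by omega⟩, ?_⟩
          rw [hj]
          exact (hp' j (by omega)).symm
      · refine ⟨⟨2 * j + 2, by omega⟩, ?_⟩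
        rw [hj]
        exact (hp j (by omega)).symm)
    (pairUp1 s) (pairUp1_invol s)
    (by
      intro i hne
      have hi := i.isLt
      have h3 : (pairUp1 s i).val ≠ i.val := fun h => hne (Fin.ext h)
      simp only [pairUp1] at h3 ⊢
      by_cases h4 : i.val = 2 * s
      · exfalso
        rw [if_pos h4] at h3
        exact h3 h4.symm
      · rw [if_neg h4]
        rcases Nat.even_or_odd' i.val with ⟨j, hj | hj⟩
        · rw [if_pos (by omega), hj]
          exact hadj j (by omega)
        · rw [if_neg (by omega), hj]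
          simp only [Nat.add_sub_cancel]
          exact (hadj j (by omega)).symm)
    (by
      intro i j hi hj
      have hi' := i.isLt
      have hj' := j.isLt
      have hi2 := congrArg Fin.val hi
      have hj2 := congrArg Fin.val hj
      simp only [pairUp1] at hi2 hj2
      apply Fin.ext
      split_ifs at hi2 hj2 <;> omega)
    ⟨⟨0, by omega⟩, h0⟩
  refine ⟨n, hn, ?_, ?_, ?_⟩
  · intro i hi
    have := h1 ⟨2 * i, by omega⟩
    simp only [pairUp1] at this
    rw [if_neg (by omega), if_pos (by omega)] at this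
    exact this
  · have := h1 ⟨2 * s, by omega⟩
    simp only [pairUp1] at this
    rw [if_pos trivial] at this
    exact this
  · intro v hv
    apply h2
    rintro ⟨i, hi⟩
    exact hv i.val (by have := i.isLt; omega) hi.symm

theorem switch_bwd {m : V → V} (hm : IsMaximum G m) (s : ℕ) (p : ℕ → V)
    (hinj : ∀ i ≤ 2 * s, ∀ k ≤ 2 * s, p i = p k → i = k)
    (h0 : m (p (2 * s)) = p (2 * s))
    (hp : ∀ i < s, m (p (2 * i)) = p (2 * i + 1))
    (hadj : ∀ i < s, G.Adj (p (2 * i + 1)) (p (2 * i + 2))) :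
    ∃ n : V → V, IsMaximum G n ∧ n (p 0) = p 0 ∧
      (∀ v, (∀ i ≤ 2 * s, v ≠ p i) → n v = m v) := by
  obtain ⟨n, hn, -, h2, h3⟩ := switch_fwd hm s (fun k => p (2 * s - k))
    (by
      intro i hi k hk hik
      have := hinj _ (by omega) _ (by omega) hik
      omega)
    (by simpa using h0)
    (by
      intro i hi
      have e1 : 2 * s - (2 * i + 1) = 2 * (s - i - 1) + 1 := by omega
      have e2 : 2 * s - (2 * i + 2) = 2 * (s - i - 1) := by omega
      simp only [e1, e2]
      rw [← hp _ (by omega), hm.1.1])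
    (by
      intro i hi
      have e1 : 2 * s - (2 * i) = 2 * (s - i - 1) + 2 := by omega
      have e2 : 2 * s - (2 * i + 1) = 2 * (s - i - 1) + 1 := by omega
      simp only [e1, e2]
      exact (hadj _ (by omega)).symm)
  refine ⟨n, hn, by simpa using h2, ?_⟩
  intro v hv
  apply h3
  intro i hi
  exact hv _ (by omega)

theorem val_succ (t : ℕ) (ht : 1 ≤ t) (k : ZMod (2 * t + 1)) (h : k.val + 1 < 2 * t + 1) :
    (k + 1).val = k.val + 1 := by
  rw [ZMod.val_add, ZMod.val_one_eq_one_mod, Nat.mod_eq_of_lt (by omega : 1 < 2 * t + 1),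
    Nat.mod_eq_of_lt h]

theorem val_pred (t : ℕ) (ht : 1 ≤ t) (k : ZMod (2 * t + 1)) (h : k ≠ 0) :
    (k - 1).val + 1 = k.val := by
  obtain ⟨k', rfl⟩ : ∃ k', k = k' + 1 := ⟨k - 1, by ring⟩
  have hlt := ZMod.val_lt k'
  rw [add_sub_cancel_right]
  by_cases h1 : k'.val + 1 < 2 * t + 1
  · rw [val_succ t ht k' h1]
  · exfalso
    apply h
    have h2 : k'.val + 1 = 2 * t + 1 := by omega
    rw [← ZMod.val_eq_zero, ZMod.val_add, ZMod.val_one_eq_one_mod,
      Nat.mod_eq_of_lt (by omega : 1 < 2 * t + 1), h2, Nat.mod_self]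

/-- near-perfect matching of the cycle, exposing `0` -/
def rho (t : ℕ) (k : ZMod (2 * t + 1)) : ZMod (2 * t + 1) :=
  if k = 0 then 0 else if k.val % 2 = 1 then k + 1 else k - 1

theorem rho_zero (t : ℕ) : rho t 0 = 0 := by simp [rho]

theorem rho_odd (t : ℕ) (k : ZMod (2 * t + 1)) (h : k.val % 2 = 1) : rho t k = k + 1 := by
  have : k ≠ 0 := by
    rintro rfl
    simp at h
  simp [rho, this, h]

theorem rho_even (t : ℕ) (k : ZMod (2 * t + 1)) (h0 : k ≠ 0) (h : k.val % 2 = 0) :
    rho t k = k - 1 := by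
  simp [rho, h0, h]

theorem rho_invol (t : ℕ) (ht : 1 ≤ t) (k : ZMod (2 * t + 1)) : rho t (rho t k) = k := by
  by_cases h0 : k = 0
  · subst h0; rw [rho_zero, rho_zero]
  · have hlt := ZMod.val_lt k
    by_cases h : k.val % 2 = 1
    · have h1 := val_succ t ht k (by omega)
      rw [rho_odd t k h, rho_even t (k + 1) ?_ (by omega)]
      · ring
      · intro h2
        rw [h2, ZMod.val_zero] at h1
        omega
    · have h1 := val_pred t ht k h0
      rw [rho_even t k h0 (by omega), rho_odd t (k - 1) (by omega)]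
      ring

theorem rho_ne (t : ℕ) (ht : 1 ≤ t) (k : ZMod (2 * t + 1)) (h0 : k ≠ 0) : rho t k ≠ k := by
  intro h
  have hlt := ZMod.val_lt k
  by_cases h' : k.val % 2 = 1
  · rw [rho_odd t k h'] at h
    have h1 := val_succ t ht k (by omega)
    rw [h] at h1
    omega
  · rw [rho_even t k h0 (by omega)] at h
    have h1 := val_pred t ht k h0
    rw [h] at h1
    omega

omit [Finite V] in
theorem cycle_adj_pred {t : ℕ} {c : ZMod (2 * t + 1) → V} (hc : IsOddCycle G t c)
    (k : ZMod (2 * t + 1)) : G.Adj (c k) (c (k - 1)) := by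
  have := (hc.2.2 (k - 1)).symm
  rwa [sub_add_cancel] at this

theorem rotate {m : V → V} (hm : IsMaximum G m) {t : ℕ} {c : ZMod (2 * t + 1) → V}
    (hc : IsOddCycle G t c) (hcl : ∀ i, m (c i) ∈ Set.range c) (hex : ∃ i, m (c i) = c i)
    (j : ZMod (2 * t + 1)) :
    ∃ n : V → V, IsMaximum G n ∧ (∀ k, n (c (j + k)) = c (j + rho t k)) ∧
      (∀ v, v ∉ Set.range c → n v = m v) := by
  obtain ⟨ht, hinj, hadj⟩ := id hc
  have hrange : ∀ v, v ∈ Set.range (fun k => c (j + k)) ↔ v ∈ Set.range c := by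
    intro v
    constructor
    · rintro ⟨k, rfl⟩
      exact ⟨j + k, rfl⟩
    · rintro ⟨k, rfl⟩
      exact ⟨k - j, by simp only; congr 1; ring⟩
  obtain ⟨n, hn, h1, h2⟩ := glue1 hm (fun k => c (j + k))
    (by
      intro a b hab
      exact add_left_cancel (hinj hab))
    (by
      intro i
      rw [hrange]
      exact hcl _)
    (rho t) (rho_invol t ht)
    (by
      intro i hi
      by_cases h0 : i = 0
      · subst h0
        rw [rho_zero] at hi
        exact absurd rfl hi
      · by_cases h' : i.val % 2 = 1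
        · rw [rho_odd t i h', ← add_assoc]
          exact hadj _
        · rw [rho_even t i h0 (by omega)]
          have := cycle_adj_pred hc (j + i)
          rwa [add_sub_assoc] at this)
    (by
      intro a b ha hb
      by_cases ha0 : a = 0
      · by_cases hb0 : b = 0
        · rw [ha0, hb0]
        · exact absurd hb (rho_ne t ht b hb0)
      · exact absurd ha (rho_ne t ht a ha0))
    (by
      obtain ⟨i, hi⟩ := hex
      refine ⟨i - j, ?_⟩
      rw [add_sub_cancel]
      exact hi)
  refine ⟨n, hn, h1, ?_⟩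
  intro v hv
  apply h2
  rw [hrange]
  exact hv

end Pool.Agent.Q223.Flower
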